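import Mathlib
import Pool.Agent.Helper56.SKF.Defs2

/-!
# SKF-K: the relations of the letters of a subalgebra
-/

namespace Pool.Agent.Helper71.SKF

open Module Pool.Agent.Helper56.SKW Pool.Agent.Helper56.SKW.PBW Pool.Agent.Helper56.SKU
  Pool.Agent.Helper56.SKR Pool.Agent.Helper56.SKF

universe u v w

section restrict

variable {R X X' : Type*} [CommRing R]

/-- The restriction of a presentation to some of the letters. -/
def h71res (Pr : Pres R X) (ι : X' → X) : Pres R X' where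
  E x y := Pr.E (ι x) (ι y)
  C x y z := Pr.C (ι x) (ι y) (ι z)
  C0 x y := Pr.C0 (ι x) (ι y)
  Dc x z := Pr.Dc (ι x) (ι z)
  D0 x := Pr.D0 (ι x)
  n x := Pr.n (ι x)

theorem h71res_rel [Fintype X] [Fintype X'] {Pr : Pres R X} {ι : X' → X}
    (hι : Function.Injective ι) (hC : ∀ x y, ∀ z ∉ Set.range ι, Pr.C (ι x) (ι y) z = 0)
    (hD : ∀ x, ∀ z ∉ Set.range ι, Pr.Dc (ι x) z = 0) {S A : Type*} [CommRing S] [Ring A]
    [Algebra S A] {φ : R →+* S} {f : X → A} (hf : IsRel Pr φ f) :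
    IsRel (h71res Pr ι) φ fun x' => f (ι x') where
  comm x y := by
    have h1 := hf.comm (ι x) (ι y)
    have h2 : ∑ z', φ (Pr.C (ι x) (ι y) (ι z')) • f (ι z') = ∑ z, φ (Pr.C (ι x) (ι y) z) • f z := by
      refine Fintype.sum_of_injective ι hι _ _ (fun z hz => ?_) (fun _ => rfl)
      rw [hC x y z hz, map_zero, zero_smul]
    rw [← h2] at h1
    exact h1
  pow x := by
    have h1 := hf.pow (ι x)
    have h2 : ∑ z', φ (Pr.Dc (ι x) (ι z')) • f (ι z') = ∑ z, φ (Pr.Dc (ι x) z) • f z := by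
      refine Fintype.sum_of_injective ι hι _ _ (fun z hz => ?_) (fun _ => rfl)
      rw [hD x z hz, map_zero, zero_smul]
    rw [← h2] at h1
    exact h1

end restrict

/-- The inclusion of the letters. -/
def h71io (m₁ m₂ n₁ n₂ : Type) : Unit ⊕ (m₁ ⊕ n₁) → Unit ⊕ ((m₁ ⊕ m₂) ⊕ (n₁ ⊕ n₂)) :=
  Sum.map id (Sum.map Sum.inl Sum.inl)

theorem h71io_inj (m₁ m₂ n₁ n₂ : Type) : Function.Injective (h71io m₁ m₂ n₁ n₂) := by
  unfold h71io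
  exact Function.Injective.sumMap Function.injective_id
    (Function.Injective.sumMap Sum.inl_injective Sum.inl_injective)

theorem h71io_cases {m₁ m₂ n₁ n₂ : Type} {z : Unit ⊕ ((m₁ ⊕ m₂) ⊕ (n₁ ⊕ n₂))}
    (hz : z ∉ Set.range (h71io m₁ m₂ n₁ n₂)) :
    (∃ i, z = Sum.inr (Sum.inl (Sum.inr i))) ∨ ∃ j, z = Sum.inr (Sum.inr (Sum.inr j)) := by
  rcases z with ⟨⟩ | ((i | i) | (j | j))
  · exact absurd ⟨Sum.inl (), rfl⟩ hz
  · exact absurd ⟨Sum.inr (Sum.inl i), rfl⟩ hz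
  · exact Or.inl ⟨i, rfl⟩
  · exact absurd ⟨Sum.inr (Sum.inr j), rfl⟩ hz
  · exact Or.inr ⟨j, rfl⟩

section coords

variable {k L : Type*} [Field k] [AddCommGroup L] [Module k L] {m₁ m₂ : Type}

theorem h71_repr_zero' (b : Basis (m₁ ⊕ m₂) k L) {a : L}
    (h1 : a ∈ Submodule.span k (Set.range fun i => b (Sum.inl i)))
    (i : m₂) : b.repr a (Sum.inr i) = 0 := by
  induction h1 using Submodule.span_induction with
  | mem a ha =>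
    obtain ⟨j, rfl⟩ := ha
    simp
  | zero => simp
  | add a b _ _ h1 h2 => simp [h1, h2]
  | smul c a _ h1 => simp [h1]

theorem h71_repr_zero (b : Basis (m₁ ⊕ m₂) k L) {H : Submodule k L}
    (hs : H ≤ Submodule.span k (Set.range fun i => b (Sum.inl i))) {a : L} (ha : a ∈ H)
    (i : m₂) : b.repr a (Sum.inr i) = 0 := h71_repr_zero' b (hs ha) i

theorem h71_sum_eq [Fintype m₁] [Fintype m₂] (b : Basis (m₁ ⊕ m₂) k L) {H : Submodule k L}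
    (hb : ∀ i, b (Sum.inl i) ∈ H)
    (hs : H ≤ Submodule.span k (Set.range fun i => b (Sum.inl i))) {a : L} (ha : a ∈ H)
    {A : Type*} [AddCommGroup A] [Module k A] (ρ : H →ₗ[k] A) :
    ∑ i, b.repr a (Sum.inl i) • ρ ⟨b (Sum.inl i), hb i⟩ = ρ ⟨a, ha⟩ := by
  have h1 : (⟨a, ha⟩ : H) = ∑ i, b.repr a (Sum.inl i) • (⟨b (Sum.inl i), hb i⟩ : H) := by
    apply Subtype.ext
    rw [AddSubmonoidClass.coe_finsetSum]
    simp only [Submodule.coe_smul]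
    conv_lhs => rw [← b.sum_repr a, Fintype.sum_sum_type]
    rw [Finset.sum_eq_zero (s := (Finset.univ : Finset m₂)) (fun i _ => ?_), add_zero]
    rw [h71_repr_zero b hs ha, zero_smul]
  rw [h1, map_sum]
  exact Finset.sum_congr rfl fun i _ => (map_smul _ _ _).symm

end coords

section rel

variable {k L₀ L₁ : Type*} [Field k] [AddCommGroup L₀] [Module k L₀] [AddCommGroup L₁]
  [Module k L₁] {m₁ m₂ n₁ n₂ : Type} {g : LieSuper k L₀ L₁} {b₀ : Basis (m₁ ⊕ m₂) k L₀}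
  {b₁ : Basis (n₁ ⊕ n₂) k L₁} {p : ℕ} {P : m₁ ⊕ m₂ → L₀} {H₀ : Submodule k L₀}
  {H₁ : Submodule k L₁}

theorem h71_br_mem (h : IsSub g H₀ H₁) {u v : L₀ × L₁} (hu0 : u.1 ∈ H₀) (hu1 : u.2 ∈ H₁)
    (hv0 : v.1 ∈ H₀) (hv1 : v.2 ∈ H₁) : (sbr g u v).1 ∈ H₀ ∧ (sbr g u v).2 ∈ H₁ := by
  rw [sbr_apply]
  exact ⟨H₀.add_mem (h.c00 _ hu0 _ hv0) (h.c11 _ hu1 _ hv1),
    H₁.sub_mem (h.c01 _ hu0 _ hv1) (h.c01 _ hv0 _ hu1)⟩

theorem h71_bas_mem (hH₀ : ∀ i, b₀ (Sum.inl i) ∈ H₀) (hH₁ : ∀ j, b₁ (Sum.inl j) ∈ H₁)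
    (x : m₁ ⊕ n₁) : ((b₀.prod b₁) (Sum.map Sum.inl Sum.inl x)).1 ∈ H₀ ∧
      ((b₀.prod b₁) (Sum.map Sum.inl Sum.inl x)).2 ∈ H₁ := by
  rcases x with x | x
  · simpa using hH₀ x
  · simpa using hH₁ x

theorem h71_coef_zero (h : IsSub g H₀ H₁) (hH₀ : ∀ i, b₀ (Sum.inl i) ∈ H₀)
    (hH₁ : ∀ j, b₁ (Sum.inl j) ∈ H₁)
    (hs₀ : H₀ ≤ Submodule.span k (Set.range fun i => b₀ (Sum.inl i)))
    (hs₁ : H₁ ≤ Submodule.span k (Set.range fun j => b₁ (Sum.inl j))) (x y : m₁ ⊕ n₁) :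
    (∀ i, (b₀.prod b₁).repr (sbr g ((b₀.prod b₁) (Sum.map Sum.inl Sum.inl x))
        ((b₀.prod b₁) (Sum.map Sum.inl Sum.inl y))) (Sum.inl (Sum.inr i)) = 0) ∧
      ∀ j, (b₀.prod b₁).repr (sbr g ((b₀.prod b₁) (Sum.map Sum.inl Sum.inl x))
        ((b₀.prod b₁) (Sum.map Sum.inl Sum.inl y))) (Sum.inr (Sum.inr j)) = 0 := by
  obtain ⟨hx0, hx1⟩ := h71_bas_mem (b₀ := b₀) (b₁ := b₁) hH₀ hH₁ x
  obtain ⟨hy0, hy1⟩ := h71_bas_mem (b₀ := b₀) (b₁ := b₁) hH₀ hH₁ y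
  obtain ⟨h1, h2⟩ := h71_br_mem h hx0 hx1 hy0 hy1
  refine ⟨fun i => ?_, fun j => ?_⟩
  · rw [Basis.prod_repr_inl]
    exact h71_repr_zero b₀ hs₀ h1 i
  · rw [Basis.prod_repr_inr]
    exact h71_repr_zero b₁ hs₁ h2 j

theorem h71_C_zero (h : IsSub g H₀ H₁) (hH₀ : ∀ i, b₀ (Sum.inl i) ∈ H₀)
    (hH₁ : ∀ j, b₁ (Sum.inl j) ∈ H₁)
    (hs₀ : H₀ ≤ Submodule.span k (Set.range fun i => b₀ (Sum.inl i)))
    (hs₁ : H₁ ≤ Submodule.span k (Set.range fun j => b₁ (Sum.inl j)))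
    (x y : Unit ⊕ (m₁ ⊕ n₁)) (z : Unit ⊕ ((m₁ ⊕ m₂) ⊕ (n₁ ⊕ n₂)))
    (hz : z ∉ Set.range (h71io m₁ m₂ n₁ n₂)) :
    (PG g b₀ b₁ p P).C (h71io m₁ m₂ n₁ n₂ x) (h71io m₁ m₂ n₁ n₂ y) z = 0 := by
  rcases x with ⟨⟩ | x
  · rfl
  · rcases y with ⟨⟩ | y
    · rfl
    · obtain ⟨h1, h2⟩ := h71_coef_zero h hH₀ hH₁ hs₀ hs₁ x y
      rcases h71io_cases hz with ⟨i, rfl⟩ | ⟨j, rfl⟩
      · exact (congrArg MvPolynomial.C (h1 i)).trans (map_zero _)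
      · exact (congrArg MvPolynomial.C (h2 j)).trans (map_zero _)

theorem h71_D_zero (h : IsSub g H₀ H₁) (hH₀ : ∀ i, b₀ (Sum.inl i) ∈ H₀)
    (hH₁ : ∀ j, b₁ (Sum.inl j) ∈ H₁)
    (hs₀ : H₀ ≤ Submodule.span k (Set.range fun i => b₀ (Sum.inl i)))
    (hs₁ : H₁ ≤ Submodule.span k (Set.range fun j => b₁ (Sum.inl j)))
    (hPH : ∀ i, P (Sum.inl i) ∈ H₀)
    (x : Unit ⊕ (m₁ ⊕ n₁)) (z : Unit ⊕ ((m₁ ⊕ m₂) ⊕ (n₁ ⊕ n₂)))
    (hz : z ∉ Set.range (h71io m₁ m₂ n₁ n₂)) :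
    (PG g b₀ b₁ p P).Dc (h71io m₁ m₂ n₁ n₂ x) z = 0 := by
  rcases x with ⟨⟩ | (x | y)
  · rfl
  · rcases h71io_cases hz with ⟨i, rfl⟩ | ⟨j, rfl⟩
    · exact (congrArg MvPolynomial.C (h71_repr_zero b₀ hs₀ (hPH x) i)).trans (map_zero _)
    · rfl
  · obtain ⟨h1, h2⟩ := h71_coef_zero h hH₀ hH₁ hs₀ hs₁ (Sum.inr y) (Sum.inr y)
    rcases h71io_cases hz with ⟨i, rfl⟩ | ⟨j, rfl⟩
    · refine (congrArg (fun c => MvPolynomial.C ((2 : k)⁻¹ * c)) (h1 i)).trans ?_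
      rw [mul_zero, map_zero]
    · refine (congrArg (fun c => MvPolynomial.C ((2 : k)⁻¹ * c)) (h2 j)).trans ?_
      rw [mul_zero, map_zero]

variable {A : Type*} [Ring A] [Algebra k A]

/-- The letters of a representation of a subalgebra. -/
noncomputable def h71G {h : IsSub g H₀ H₁} (M : GRep (subL h) A) (hH₀ : ∀ i : m₁, b₀ (Sum.inl i) ∈ H₀)
    (hH₁ : ∀ j : n₁, b₁ (Sum.inl j) ∈ H₁) : Unit ⊕ (m₁ ⊕ n₁) → A
  | Sum.inl _ => M.σ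
  | Sum.inr (Sum.inl i) => M.ρ₀ ⟨b₀ (Sum.inl i), hH₀ i⟩
  | Sum.inr (Sum.inr j) => M.ρ₁ ⟨b₁ (Sum.inl j), hH₁ j⟩

variable [Fintype m₁] [Fintype m₂] [Fintype n₁] [Fintype n₂] {F : Type*} [Field F] [Algebra k F]
  [Algebra F A] [IsScalarTower k F A]

theorem h71_sumC {h : IsSub g H₀ H₁} (M : GRep (subL h) A) (hH₀ : ∀ i : m₁, b₀ (Sum.inl i) ∈ H₀)
    (hH₁ : ∀ j : n₁, b₁ (Sum.inl j) ∈ H₁)
    (hs₀ : H₀ ≤ Submodule.span k (Set.range fun i => b₀ (Sum.inl i)))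
    (hs₁ : H₁ ≤ Submodule.span k (Set.range fun j => b₁ (Sum.inl j))) (w : L₀ × L₁)
    (hw0 : w.1 ∈ H₀) (hw1 : w.2 ∈ H₁) :
    ∑ z : m₁ ⊕ n₁, algebraMap k F ((b₀.prod b₁).repr w (Sum.map Sum.inl Sum.inl z)) •
      h71G M hH₀ hH₁ (Sum.inr z) = M.ρ₀ ⟨w.1, hw0⟩ + M.ρ₁ ⟨w.2, hw1⟩ := by
  rw [Fintype.sum_sum_type, ← h71_sum_eq b₀ hH₀ hs₀ hw0 M.ρ₀, ← h71_sum_eq b₁ hH₁ hs₁ hw1 M.ρ₁]
  congr 1
  · refine Finset.sum_congr rfl fun i _ => ?_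
    rw [algebraMap_smul, Sum.map_inl, Basis.prod_repr_inl]
    rfl
  · refine Finset.sum_congr rfl fun i _ => ?_
    rw [algebraMap_smul, Sum.map_inr, Basis.prod_repr_inr]
    rfl

theorem h71_relM (h2 : (2 : k) ≠ 0) {h : IsSub g H₀ H₁} (M : GRep (subL h) A)
    (hH₀ : ∀ i : m₁, b₀ (Sum.inl i) ∈ H₀) (hH₁ : ∀ j : n₁, b₁ (Sum.inl j) ∈ H₁)
    (hs₀ : H₀ ≤ Submodule.span k (Set.range fun i => b₀ (Sum.inl i)))
    (hs₁ : H₁ ≤ Submodule.span k (Set.range fun j => b₁ (Sum.inl j)))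
    (hPH : ∀ i, P (Sum.inl i) ∈ H₀) (ζ : m₁ ⊕ m₂ → F)
    (hM : ∀ i : m₁, M.ρ₀ ⟨b₀ (Sum.inl i), hH₀ i⟩ ^ p - M.ρ₀ ⟨P (Sum.inl i), hPH i⟩ =
      ζ (Sum.inl i) • 1) :
    IsRel (h71res (PG g b₀ b₁ p P) (h71io m₁ m₂ n₁ n₂))
      ((MvPolynomial.aeval ζ : MvPolynomial (m₁ ⊕ m₂) k →ₐ[k] F) :
        MvPolynomial (m₁ ⊕ m₂) k →+* F) (h71G M hH₀ hH₁) := by
  have hF2 : (2 : F) ≠ 0 := by
    intro h0
    apply h2
    apply (algebraMap k F).injective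
    rw [map_zero, map_ofNat, h0]
  set PR := h71res (PG g b₀ b₁ p P) (h71io m₁ m₂ n₁ n₂) with hPR
  have eC : ∀ x y z : m₁ ⊕ n₁, PR.C (Sum.inr x) (Sum.inr y) (Sum.inr z) =
      MvPolynomial.C ((b₀.prod b₁).repr (sbr g ((b₀.prod b₁) (Sum.map Sum.inl Sum.inl x))
        ((b₀.prod b₁) (Sum.map Sum.inl Sum.inl y))) (Sum.map Sum.inl Sum.inl z)) :=
    fun x y z => rfl
  have hsum : ∀ x y : m₁ ⊕ n₁, ∀ (hw0) (hw1),
      ∑ z, ((MvPolynomial.aeval ζ : MvPolynomial (m₁ ⊕ m₂) k →ₐ[k] F) :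
        MvPolynomial (m₁ ⊕ m₂) k →+* F) (PR.C (Sum.inr x) (Sum.inr y) z) • h71G M hH₀ hH₁ z =
      M.ρ₀ ⟨(sbr g ((b₀.prod b₁) (Sum.map Sum.inl Sum.inl x))
        ((b₀.prod b₁) (Sum.map Sum.inl Sum.inl y))).1, hw0⟩ +
      M.ρ₁ ⟨(sbr g ((b₀.prod b₁) (Sum.map Sum.inl Sum.inl x))
        ((b₀.prod b₁) (Sum.map Sum.inl Sum.inl y))).2, hw1⟩ := by
    intro x y hw0 hw1
    rw [← h71_sumC (F := F) M hH₀ hH₁ hs₀ hs₁ _ hw0 hw1, Fintype.sum_sum_type]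
    have e3 : ∀ z, PR.C (Sum.inr x) (Sum.inr y) (Sum.inl z) = 0 := fun z => rfl
    simp only [e3, eC, map_zero, zero_smul, Finset.sum_const_zero, zero_add, RingHom.coe_coe,
      MvPolynomial.aeval_C]
  have hmem : ∀ x y : m₁ ⊕ n₁, (sbr g ((b₀.prod b₁) (Sum.map Sum.inl Sum.inl x))
        ((b₀.prod b₁) (Sum.map Sum.inl Sum.inl y))).1 ∈ H₀ ∧
      (sbr g ((b₀.prod b₁) (Sum.map Sum.inl Sum.inl x))
        ((b₀.prod b₁) (Sum.map Sum.inl Sum.inl y))).2 ∈ H₁ := by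
    intro x y
    obtain ⟨hx0, hx1⟩ := h71_bas_mem (b₀ := b₀) (b₁ := b₁) hH₀ hH₁ x
    obtain ⟨hy0, hy1⟩ := h71_bas_mem (b₀ := b₀) (b₁ := b₁) hH₀ hH₁ y
    exact h71_br_mem h hx0 hx1 hy0 hy1
  constructor
  · rintro (⟨⟩ | x) (⟨⟩ | y)
    · have e1 : PR.E (Sum.inl ()) (Sum.inl ()) = -1 :=
          (if_pos rfl : (if (true && true) = true then (-1 : MvPolynomial (m₁ ⊕ m₂) k) else 1) = -1)
      have e2 : ∀ z, PR.C (Sum.inl ()) (Sum.inl ()) z = 0 := by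
        rintro (z | z) <;> rfl
      have e3 : PR.C0 (Sum.inl ()) (Sum.inl ()) = 2 := rfl
      have e4 : h71G M hH₀ hH₁ (Sum.inl ()) * h71G M hH₀ hH₁ (Sum.inl ()) = 1 := M.ss
      simp only [e1, e2, e3, map_zero, zero_smul, Finset.sum_const_zero, add_zero, map_neg,
        map_one, map_ofNat, e4]
      module
    · have e2 : ∀ z, PR.C (Sum.inl ()) (Sum.inr y) z = 0 := by
        rintro (z | z) <;> rfl
      have e3 : PR.C0 (Sum.inl ()) (Sum.inr y) = 0 := rfl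
      simp only [e2, e3, map_zero, zero_smul, Finset.sum_const_zero, add_zero]
      rcases y with y | y
      · have e1 : PR.E (Sum.inl ()) (Sum.inr (Sum.inl y)) = 1 :=
          (if_neg Bool.false_ne_true :
            (if false = true then (-1 : MvPolynomial (m₁ ⊕ m₂) k) else 1) = 1)
        rw [e1, map_one, one_smul]
        exact M.s0 _
      · have e1 : PR.E (Sum.inl ()) (Sum.inr (Sum.inr y)) = -1 :=
          (if_pos rfl : (if (true && true) = true then (-1 : MvPolynomial (m₁ ⊕ m₂) k) else 1) = -1)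
        rw [e1, map_neg, map_one, neg_smul, one_smul]
        exact M.s1 _
    · have e2 : ∀ z, PR.C (Sum.inr x) (Sum.inl ()) z = 0 := by
        rintro (z | z) <;> rfl
      have e3 : PR.C0 (Sum.inr x) (Sum.inl ()) = 0 := rfl
      simp only [e2, e3, map_zero, zero_smul, Finset.sum_const_zero, add_zero]
      rcases x with x | x
      · have e1 : PR.E (Sum.inr (Sum.inl x)) (Sum.inl ()) = 1 :=
          (if_neg Bool.false_ne_true :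
            (if false = true then (-1 : MvPolynomial (m₁ ⊕ m₂) k) else 1) = 1)
        rw [e1, map_one, one_smul]
        exact (M.s0 _).symm
      · have e1 : PR.E (Sum.inr (Sum.inr x)) (Sum.inl ()) = -1 :=
          (if_pos rfl : (if (true && true) = true then (-1 : MvPolynomial (m₁ ⊕ m₂) k) else 1) = -1)
        rw [e1, map_neg, map_one, neg_smul, one_smul]
        have := M.s1 ⟨b₁ (Sum.inl x), hH₁ x⟩
        show M.ρ₁ ⟨b₁ (Sum.inl x), hH₁ x⟩ * M.σ = -(M.σ * M.ρ₁ ⟨b₁ (Sum.inl x), hH₁ x⟩)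
        rw [this, neg_neg]
    · have e2 : PR.C0 (Sum.inr x) (Sum.inr y) = 0 := by
        rcases x with x | x <;> rcases y with y | y <;> rfl
      rw [e2, map_zero, zero_smul, add_zero, hsum x y (hmem x y).1 (hmem x y).2]
      have hm := hmem x y
      rcases x with x | x <;> rcases y with y | y
      · have e1 : PR.E (Sum.inr (Sum.inl x)) (Sum.inr (Sum.inl y)) = 1 :=
          (if_neg Bool.false_ne_true :
            (if false = true then (-1 : MvPolynomial (m₁ ⊕ m₂) k) else 1) = 1)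
        have e4 : (⟨_, hm.1⟩ : H₀) = (subL h).b00 ⟨b₀ (Sum.inl x), hH₀ x⟩
            ⟨b₀ (Sum.inl y), hH₀ y⟩ := Subtype.ext (by simp [sbr_apply, subL])
        have e5 : (⟨_, hm.2⟩ : H₁) = 0 := Subtype.ext (by simp [sbr_apply])
        rw [e1, map_one, one_smul, e4, e5, map_zero, add_zero, M.m00]
        show M.ρ₀ ⟨b₀ (Sum.inl x), hH₀ x⟩ * M.ρ₀ ⟨b₀ (Sum.inl y), hH₀ y⟩ =
          M.ρ₀ ⟨b₀ (Sum.inl y), hH₀ y⟩ * M.ρ₀ ⟨b₀ (Sum.inl x), hH₀ x⟩ + _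
        abel
      · have e1 : PR.E (Sum.inr (Sum.inl x)) (Sum.inr (Sum.inr y)) = 1 :=
          (if_neg Bool.false_ne_true :
            (if false = true then (-1 : MvPolynomial (m₁ ⊕ m₂) k) else 1) = 1)
        have e4 : (⟨_, hm.1⟩ : H₀) = 0 := Subtype.ext (by simp [sbr_apply])
        have e5 : (⟨_, hm.2⟩ : H₁) = (subL h).b01 ⟨b₀ (Sum.inl x), hH₀ x⟩
            ⟨b₁ (Sum.inl y), hH₁ y⟩ := Subtype.ext (by simp [sbr_apply, subL])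
        rw [e1, map_one, one_smul, e4, e5, map_zero, zero_add, M.m01]
        show M.ρ₀ ⟨b₀ (Sum.inl x), hH₀ x⟩ * M.ρ₁ ⟨b₁ (Sum.inl y), hH₁ y⟩ =
          M.ρ₁ ⟨b₁ (Sum.inl y), hH₁ y⟩ * M.ρ₀ ⟨b₀ (Sum.inl x), hH₀ x⟩ + _
        abel
      · have e1 : PR.E (Sum.inr (Sum.inr x)) (Sum.inr (Sum.inl y)) = 1 :=
          (if_neg Bool.false_ne_true :
            (if false = true then (-1 : MvPolynomial (m₁ ⊕ m₂) k) else 1) = 1)
        have e4 : (⟨_, hm.1⟩ : H₀) = 0 := Subtype.ext (by simp [sbr_apply])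
        have e5 : (⟨_, hm.2⟩ : H₁) = -(subL h).b01 ⟨b₀ (Sum.inl y), hH₀ y⟩
            ⟨b₁ (Sum.inl x), hH₁ x⟩ := Subtype.ext (by simp [sbr_apply, subL])
        rw [e1, map_one, one_smul, e4, e5, map_zero, zero_add, map_neg, M.m01]
        show M.ρ₁ ⟨b₁ (Sum.inl x), hH₁ x⟩ * M.ρ₀ ⟨b₀ (Sum.inl y), hH₀ y⟩ =
          M.ρ₀ ⟨b₀ (Sum.inl y), hH₀ y⟩ * M.ρ₁ ⟨b₁ (Sum.inl x), hH₁ x⟩ + _
        abel
      · have e1 : PR.E (Sum.inr (Sum.inr x)) (Sum.inr (Sum.inr y)) = -1 :=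
          (if_pos rfl : (if (true && true) = true then (-1 : MvPolynomial (m₁ ⊕ m₂) k) else 1) = -1)
        have e4 : (⟨_, hm.1⟩ : H₀) = (subL h).b11 ⟨b₁ (Sum.inl x), hH₁ x⟩
            ⟨b₁ (Sum.inl y), hH₁ y⟩ := Subtype.ext (by simp [sbr_apply, subL])
        have e5 : (⟨_, hm.2⟩ : H₁) = 0 := Subtype.ext (by simp [sbr_apply])
        rw [e1, map_neg, map_one, neg_smul, one_smul, e4, e5, map_zero, add_zero, M.m11]
        show M.ρ₁ ⟨b₁ (Sum.inl x), hH₁ x⟩ * M.ρ₁ ⟨b₁ (Sum.inl y), hH₁ y⟩ =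
          -(M.ρ₁ ⟨b₁ (Sum.inl y), hH₁ y⟩ * M.ρ₁ ⟨b₁ (Sum.inl x), hH₁ x⟩) + _
        abel
  · rintro (⟨⟩ | (x | x))
    · have e2 : ∀ z, PR.Dc (Sum.inl ()) z = 0 := by
        rintro (z | z) <;> rfl
      have e3 : PR.D0 (Sum.inl ()) = 1 := rfl
      have e4 : PR.n (Sum.inl ()) = 2 := rfl
      simp only [e2, e3, e4, map_zero, zero_smul, Finset.sum_const_zero, zero_add, map_one,
        one_smul]
      rw [pow_two]
      exact M.ss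
    · have e4 : PR.n (Sum.inr (Sum.inl x)) = p := rfl
      have e3 : PR.D0 (Sum.inr (Sum.inl x)) = MvPolynomial.X (Sum.inl x) := rfl
      rw [e3, e4, Fintype.sum_sum_type, Fintype.sum_sum_type]
      have e5 : ∀ z, PR.Dc (Sum.inr (Sum.inl x)) (Sum.inl z) = 0 := fun z => rfl
      have e6 : ∀ z, PR.Dc (Sum.inr (Sum.inl x)) (Sum.inr (Sum.inr z)) = 0 :=
        fun z => rfl
      have e7 : ∀ z, PR.Dc (Sum.inr (Sum.inl x)) (Sum.inr (Sum.inl z)) =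
        MvPolynomial.C (b₀.repr (P (Sum.inl x)) (Sum.inl z)) := fun z => rfl
      simp only [e5, e6, e7, map_zero, zero_smul, Finset.sum_const_zero, zero_add, add_zero]
      simp only [RingHom.coe_coe, MvPolynomial.aeval_C, MvPolynomial.aeval_X, algebraMap_smul]
      have e8 := h71_sum_eq b₀ hH₀ hs₀ (hPH x) M.ρ₀
      have e9 := hM x
      show M.ρ₀ ⟨b₀ (Sum.inl x), hH₀ x⟩ ^ p =
        ∑ z, b₀.repr (P (Sum.inl x)) (Sum.inl z) • M.ρ₀ ⟨b₀ (Sum.inl z), hH₀ z⟩ +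
          ζ (Sum.inl x) • 1
      rw [e8, ← e9]
      abel
    · have e4 : PR.n (Sum.inr (Sum.inr x)) = 2 := rfl
      have e3 : PR.D0 (Sum.inr (Sum.inr x)) = 0 := rfl
      have e7 : ∀ z, PR.Dc (Sum.inr (Sum.inr x)) z =
          MvPolynomial.C ((2 : k)⁻¹) * PR.C (Sum.inr (Sum.inr x)) (Sum.inr (Sum.inr x)) z := by
        rintro (z | z)
        · show (0 : MvPolynomial (m₁ ⊕ m₂) k) = _ * 0
          rw [mul_zero]
        · exact map_mul MvPolynomial.C _ _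
      rw [e3, e4, map_zero, zero_smul, add_zero]
      simp only [e7, map_mul, mul_smul]
      rw [← Finset.smul_sum, hsum _ _ (hmem (Sum.inr x) (Sum.inr x)).1
        (hmem (Sum.inr x) (Sum.inr x)).2]
      have hm := hmem (Sum.inr x) (Sum.inr x)
      have e4 : (⟨_, hm.1⟩ : H₀) = (subL h).b11 ⟨b₁ (Sum.inl x), hH₁ x⟩
            ⟨b₁ (Sum.inl x), hH₁ x⟩ := Subtype.ext (by simp [sbr_apply, subL])
      have e5 : (⟨_, hm.2⟩ : H₁) = 0 := Subtype.ext (by simp [sbr_apply])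
      rw [e4, e5, map_zero, add_zero, M.m11]
      simp only [RingHom.coe_coe, MvPolynomial.aeval_C, map_inv₀, map_ofNat]
      rw [eq_inv_smul_iff₀ hF2, two_smul, pow_two]
      rfl

end rel

end Pool.Agent.Helper71.SKF
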