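import Mathlib
import Pool.Agent.Helper56.SKF.Defs2
import Pool.Agent.Helper71.SKF.CoRel
import Pool.Agent.Helper81.SKF.Coind

/-!
# SKF-K: coinduction of representations of a subalgebra
-/

namespace Pool.Agent.Helper71.SKF

open Module Pool.Agent.Helper56.SKW Pool.Agent.Helper56.SKW.PBW Pool.Agent.Helper56.SKU
  Pool.Agent.Helper56.SKR Pool.Agent.Helper56.SKF

universe u v w

section key

variable {X X' : Type} [Fintype X]

open Classical in
/-- The ranking of the letters: the letters in the range of `ι` come first. -/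
noncomputable def h71key (ι : X' → X) (x : X) : ℕ :=
  if x ∈ Set.range ι then (Fintype.equivFin X x : ℕ)
  else Fintype.card X + (Fintype.equivFin X x : ℕ)

theorem h71key_inj (ι : X' → X) : Function.Injective (h71key ι) := by
  intro x y hxy
  have hx := (Fintype.equivFin X x).2
  have hy := (Fintype.equivFin X y).2
  unfold h71key at hxy
  apply (Fintype.equivFin X).injective
  apply Fin.ext
  split_ifs at hxy <;> omega

theorem h71key_lt (ι : X' → X) (x' : X') (x : X) (hx : x ∉ Set.range ι) :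
    h71key ι (ι x') < h71key ι x := by
  have h1 := (Fintype.equivFin X (ι x')).2
  unfold h71key
  rw [if_pos ⟨x', rfl⟩, if_neg hx]
  omega

end key

section chr

variable {k : Type u} {L₀ L₁ : Type*} [Field k] [AddCommGroup L₀] [Module k L₀] [AddCommGroup L₁]
  [Module k L₁] {m n : Type} [Fintype m] [Fintype n] [DecidableEq m] [DecidableEq n]
  {g : LieSuper k L₀ L₁} {b₀ : Basis m k L₀} {b₁ : Basis n k L₁} {p : ℕ} {P : m → L₀}

/-- From a representation of the universal algebra to a representation of the superalgebra. -/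
theorem h71_exists_grep {F : Type u} [Field F] [Algebra k F] {W : Type u} [AddCommGroup W]
    [Module F W] [Module k W] [IsScalarTower k F W] (ζ : m → F)
    (ρ : EU (PG g b₀ b₁ p P) →+* Module.End F W)
    (hρ : ∀ (r : MvPolynomial m k) a, ρ (r • a) = MvPolynomial.aeval ζ r • ρ a) :
    ∃ N : GRep g (Module.End F W), N.Chr b₀ p P ζ := by
  have hρ' : ∀ (c : k) a, ρ ((MvPolynomial.C c : MvPolynomial m k) • a) = c • ρ a := by
    intro c a
    rw [hρ, MvPolynomial.aeval_C, algebraMap_smul]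
  obtain ⟨ρ₀, ρ₁, σ, h0, h1, hσ, hss, hs0, hs1, h00, h01, h11⟩ := exists_act ρ hρ'
  refine ⟨⟨σ, ρ₀, ρ₁, hss, hs0, hs1, h00, h01, h11⟩, fun i => ?_⟩
  show ρ₀ (b₀ i) ^ p - ρ₀ (P i) = ζ i • 1
  have h2 := congrArg ρ ((gE_rel (PG g b₀ b₁ p P)).pow (Sum.inr (Sum.inl i)))
  have e4 : (PG g b₀ b₁ p P).n (Sum.inr (Sum.inl i)) = p := rfl
  have e3 : (PG g b₀ b₁ p P).D0 (Sum.inr (Sum.inl i)) = MvPolynomial.X i := rfl
  rw [e3, e4, Fintype.sum_sum_type, Fintype.sum_sum_type] at h2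
  have e5 : ∀ z, (PG g b₀ b₁ p P).Dc (Sum.inr (Sum.inl i)) (Sum.inl z) = 0 := fun z => rfl
  have e6 : ∀ z, (PG g b₀ b₁ p P).Dc (Sum.inr (Sum.inl i)) (Sum.inr (Sum.inr z)) = 0 :=
    fun z => rfl
  have e7 : ∀ z, (PG g b₀ b₁ p P).Dc (Sum.inr (Sum.inl i)) (Sum.inr (Sum.inl z)) =
    MvPolynomial.C (b₀.repr (P i) z) := fun z => rfl
  simp only [e5, e6, e7, map_zero, zero_smul, Finset.sum_const_zero, zero_add, add_zero,
    RingHom.id_apply, map_add, map_sum, map_pow, hρ, MvPolynomial.aeval_C,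
    MvPolynomial.aeval_X, map_one, algebraMap_smul] at h2
  have h3 : ρ₀ (P i) = ∑ z, b₀.repr (P i) z • ρ (gE (PG g b₀ b₁ p P) (Sum.inr (Sum.inl z))) := by
    conv_lhs => rw [← b₀.sum_repr (P i)]
    rw [map_sum]
    refine Finset.sum_congr rfl fun z _ => ?_
    rw [map_smul, h0]
  rw [h0, h2, h3]
  abel

end chr

theorem coind_rep {k : Type u} {L₀ L₁ : Type*} [Field k] [AddCommGroup L₀] [Module k L₀]
    [AddCommGroup L₁] [Module k L₁] {m₁ m₂ n₁ n₂ : Type} [Fintype m₁] [Fintype m₂] [Fintype n₁]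
    [Fintype n₂] [DecidableEq m₁] [DecidableEq m₂] [DecidableEq n₁] [DecidableEq n₂]
    (g : LieSuper k L₀ L₁) (b₀ : Basis (m₁ ⊕ m₂) k L₀) (b₁ : Basis (n₁ ⊕ n₂) k L₁) (p : ℕ)
    [hp : Fact p.Prime] [CharP k p] (hp2 : 2 < p) (P : m₁ ⊕ m₂ → L₀)
    (hP0 : ∀ i x, g.b00 (P i) x = ((g.b00 (b₀ i)) ^ p) x)
    (hP1 : ∀ i y, g.b01 (P i) y = ((g.b01 (b₀ i)) ^ p) y) (H₀ : Submodule k L₀)
    (H₁ : Submodule k L₁) (h : IsSub g H₀ H₁) (hH₀ : ∀ i, b₀ (Sum.inl i) ∈ H₀)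
    (hH₁ : ∀ j, b₁ (Sum.inl j) ∈ H₁)
    (hs₀ : H₀ ≤ Submodule.span k (Set.range fun i => b₀ (Sum.inl i)))
    (hs₁ : H₁ ≤ Submodule.span k (Set.range fun j => b₁ (Sum.inl j)))
    (hPH : ∀ i, P (Sum.inl i) ∈ H₀) {F : Type u} [Field F] [Algebra k F] (ζ : m₁ ⊕ m₂ → F)
    {V : Type u} [AddCommGroup V] [Module F V] [Module k V] [IsScalarTower k F V]
    [FiniteDimensional F V] (M : GRep (subL h) (Module.End F V))
    (hM : ∀ i : m₁, M.ρ₀ ⟨b₀ (Sum.inl i), hH₀ i⟩ ^ p - M.ρ₀ ⟨P (Sum.inl i), hPH i⟩ =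
      ζ (Sum.inl i) • 1) :
    ∃ (W : Type u) (_ : AddCommGroup W) (_ : Module F W) (_ : Module k W)
      (_ : IsScalarTower k F W) (_ : FiniteDimensional F W) (N : GRep g (Module.End F W)),
      N.Chr b₀ p P ζ ∧
      finrank F W = p ^ Fintype.card m₂ * 2 ^ Fintype.card n₂ * finrank F V := by
  have h2 : (2 : k) ≠ 0 := by
    intro h0
    have h1 : ((2 : ℕ) : k) = 0 := by exact_mod_cast h0
    rw [CharP.cast_eq_zero_iff k p] at h1
    have := Nat.le_of_dvd (by norm_num) h1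
    omega
  let ι := h71io m₁ m₂ n₁ n₂
  let _ : LinearOrder (Unit ⊕ ((m₁ ⊕ m₂) ⊕ (n₁ ⊕ n₂))) := LinearOrder.lift' (h71key ι)
    (h71key_inj ι)
  let _ : LinearOrder (Unit ⊕ (m₁ ⊕ n₁)) := LinearOrder.lift' (fun x' => h71key ι (ι x'))
    ((h71key_inj ι).comp (h71io_inj m₁ m₂ n₁ n₂))
  have hι : StrictMono ι := fun x y hxy => hxy
  have hlt : ∀ x' x, x ∉ Set.range ι → ι x' < x := fun x' x hx => h71key_lt ι x' x hx
  let Pr := PG g b₀ b₁ p P
  let Pr' := h71res Pr ι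
  have hfl : IsFlat (PG_hE g b₀ b₁ p P) (PG_hn g b₀ b₁ p P hp.out.two_le) :=
    full_flat h2 hP0 hP1
  have hrel : IsRel Pr' (RingHom.id _) fun x' => gE Pr (ι x') :=
    h71res_rel (h71io_inj m₁ m₂ n₁ n₂) (h71_C_zero h hH₀ hH₁ hs₀ hs₁)
      (h71_D_zero h hH₀ hH₁ hs₀ hs₁ hPH) (gE_rel Pr)
  have hrM := h71_relM h2 M hH₀ hH₁ hs₀ hs₁ hPH ζ hM
  obtain ⟨W, i1, i2, i3, ρ, hρ, hdim⟩ := Pool.Agent.Helper81.SKF.coind_pres Pr Pr'
    (PG_hE g b₀ b₁ p P) (PG_hn g b₀ b₁ p P hp.out.two_le) hfl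
    (fun x y => PG_hE g b₀ b₁ p P (ι x) (ι y)) ι hι hlt (fun x' => rfl) hrel
    ((MvPolynomial.aeval ζ : MvPolynomial (m₁ ⊕ m₂) k →ₐ[k] F) :
        MvPolynomial (m₁ ⊕ m₂) k →+* F) (liftE hrM) (liftE_smul hrM)
  let i4 : Module k W := Module.compHom W (algebraMap k F)
  have i5 : IsScalarTower k F W := ⟨fun a b v => by
    rw [Algebra.smul_def, mul_smul]
    rfl⟩
  obtain ⟨N, hN⟩ := h71_exists_grep (b₀ := b₀) (b₁ := b₁) ζ ρ hρ
  refine ⟨W, i1, i2, i4, i5, i3, N, hN, ?_⟩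
  have e1 : ∏ x, Pr.n x = p ^ (Fintype.card m₁ + Fintype.card m₂) *
      2 ^ (Fintype.card n₁ + Fintype.card n₂ + 1) := by
    have := PG_prod g b₀ b₁ p P
    rwa [Fintype.card_sum, Fintype.card_sum] at this
  have e2 : ∏ x, Pr'.n x = p ^ Fintype.card m₁ * 2 ^ (Fintype.card n₁ + 1) := by
    show ∏ x : Unit ⊕ (m₁ ⊕ n₁), Pr.n (ι x) = _
    rw [Fintype.prod_sum_type, Fintype.prod_sum_type]
    show (∏ _x : Unit, 2) * ((∏ _x : m₁, p) * ∏ _x : n₁, 2) = _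
    simp only [Finset.prod_const, Finset.card_univ, Fintype.card_unit]
    ring
  rw [e1, e2] at hdim
  have hpos : 0 < p ^ Fintype.card m₁ * 2 ^ (Fintype.card n₁ + 1) :=
    Nat.mul_pos (pow_pos hp.out.pos _) (pow_pos (by norm_num) _)
  refine Nat.eq_of_mul_eq_mul_right hpos (hdim.trans ?_)
  ring

end Pool.Agent.Helper71.SKF
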